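import Pool.Agent.Lib.MP_dc1b93_an.Final

/-!
# Every separable infinite-dimensional complex Banach space carries an admissible operator

For every separable infinite-dimensional complex Banach space `X` there is a bounded operator `T`
on `X` which is hypercyclic, has spectrum `{1}`, and is such that the direct sum of `T` with itself
is not cyclic on `X × X`.
-/

set_option autoImplicit false

universe u

theorem Pool.Agent.Results.MP_dc1b93_an.AdmissibleEverywhere.result :
    ∀ (X : Type u) [NormedAddCommGroup X] [NormedSpace ℂ X] [CompleteSpace X]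
      [TopologicalSpace.SeparableSpace X], ¬ FiniteDimensional ℂ X →
      ∃ T : X →L[ℂ] X,
        (∃ x : X, Dense (Set.range fun n : ℕ => (T ^ n) x)) ∧
        spectrum ℂ T = {1} ∧
        ¬ ∃ z : X × X, Dense (Submodule.span ℂ
          (Set.range fun n : ℕ => ((T.prodMap T) ^ n) z) : Set (X × X)) := by
  intro X _ _ _ _ hX
  obtain ⟨e, N, B, h1, h2, h3, h4, h5⟩ := Pool.MP_dc1b93_an.exists_pair hX
  have hnt : Nontrivial X := by
    by_contra h
    rw [not_nontrivial_iff_subsingleton] at h
    exact hX inferInstance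
  refine ⟨NormedSpace.exp N, ⟨e, ?_⟩, Pool.MP_dc1b93_an.spectrum_exp N h2,
    Pool.MP_dc1b93_an.not_cyclic _ B h4 (Pool.MP_dc1b93_an.B_exp_symm N B h5) e h3⟩
  rw [Metric.dense_iff]
  intro y r hr
  obtain ⟨n, hn⟩ := h1 y r hr
  refine ⟨((NormedSpace.exp N) ^ n) e, ?_, n, rfl⟩
  rw [Metric.mem_ball, dist_eq_norm]
  exact hn
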